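import Pool.Agent.Helper775.Herman.Fin

/-!
# Herman's question on generic gradient maps: the answer is negative in every dimension `n ≥ 6`

The definitions (Whitney topology, critical points, regular values, local degree, property (R)) are in
`Pool/Agent/Helper775/Herman/Defs.lean`.

Idea: for `n ≥ 6` there is a Whitney open set of functions `f` having a point `x` at which the Hessian
has corank `3` and the cubic form `C` on its kernel is close to `z (x² + y² - z²)`.  The local degree of
`grad f` at `x` is `0`.  But `{C < 0}` is disconnected (a cap and an annulus on the sphere), so a mountain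
pass argument gives a critical point near `x` of `f - ⟨y, ·⟩` for every `y` close to `grad f x`.
-/

open Set Filter Topology
open scoped InnerProductSpace ContDiff

namespace Pool.Agent.Results.MP_afd482_gt.HermanGradient

open Pool.Agent.Helper775.Herman

/-- **Negative answer to Q1.** Let `n ≥ 6`. The set of smooth functions `f` on `ℝⁿ` such that `grad f` has
property (R) at every critical point isolated in its fibre is not residual in the Whitney `C^∞`
topology. Moreover all functions `f` in some non-empty Whitney open set have a critical point `x` of
`grad f`, isolated in its fibre, at which the local degree can only be `0`, such that all values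
close to `grad f x` have a preimage in any given neighbourhood of `x`; so (R) fails at `x`. -/
theorem result (n : ℕ) (hn : 6 ≤ n) :
    {f : SmoothFn n | HermanProperty f} ∉ residual (SmoothFn n) ∧
    ∃ O : Set (SmoothFn n), IsOpen O ∧ O.Nonempty ∧
      ∀ f ∈ O, ∃ x, IsCriticalPt (gradient f.1) x ∧ IsIsolatedInFibre (gradient f.1) x ∧
        (∀ k, HasLocalDegree (gradient f.1) x k → k = 0) ∧
        (∀ U ∈ 𝓝 x, ∀ᶠ y in 𝓝 (gradient f.1 x), (U ∩ gradient f.1 ⁻¹' {y}).Nonempty) ∧
        ¬ PropertyR (gradient f.1) x :=
  ⟨main n hn, exists_open_bad hn⟩

end Pool.Agent.Results.MP_afd482_gt.HermanGradient
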